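import Pool.Agent.Lib.MP_4fbe7c_an.ND.Base

/-! RFL: the second order condition at an interior maximum (reflection coupling). -/

set_option autoImplicit false

open Set MeasureTheory Filter Topology

namespace Pool.Agent.Lib.MP_4fbe7c_an.ND.H33

variable {p : ℕ} {Ω : Set (Eu p)} {q : Eu p → ℝ}

/-- The second order condition in one variable. -/
theorem second_nonpos {φ φ₁ : ℝ → ℝ} {φ₂ : ℝ} (hmax : IsLocalMax φ 0)
    (h1 : ∀ᶠ s in 𝓝 (0 : ℝ), HasDerivAt φ (φ₁ s) s) (h2 : HasDerivAt φ₁ φ₂ 0) : φ₂ ≤ 0 := by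
  by_contra hc
  push Not at hc
  have e1 : deriv φ =ᶠ[𝓝 0] φ₁ := h1.mono fun s hs => hs.deriv
  have e2 : deriv (deriv φ) 0 = φ₂ := by rw [e1.deriv_eq]; exact h2.deriv
  have e3 : deriv φ 0 = 0 := hmax.deriv_eq_zero
  have e4 : IsLocalMin φ 0 := isLocalMin_of_deriv_deriv_pos (by rw [e2]; exact hc) e3
    h1.self_of_nhds.continuousAt
  have e5 : φ =ᶠ[𝓝 0] fun _ => φ 0 := by
    filter_upwards [hmax, e4] with s a b
    exact le_antisymm a b
  have e6 : deriv φ =ᶠ[𝓝 0] fun _ => 0 := by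
    have := e5.deriv
    simpa using this
  have e7 : deriv (deriv φ) 0 = 0 := by rw [e6.deriv_eq]; simp
  linarith

theorem hasDerivAt_path (x v : Eu p) (s : ℝ) : HasDerivAt (fun s : ℝ => x + s • v) v s := by
  have := ((hasDerivAt_id s).smul_const v).const_add x
  simpa using this

/-- The second derivative along a line. -/
theorem hasDerivAt_inner_line {g : Eu p → Eu p} {L : Eu p →L[ℝ] Eu p} {x : Eu p} (v : Eu p)
    (h : HasFDerivAt g L x) :
    HasDerivAt (fun s : ℝ => inner ℝ (g (x + s • v)) v) (inner ℝ (L v) v) 0 := by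
  have h0 : HasFDerivAt g L (x + (0 : ℝ) • v) := by simpa using h
  have h3 : HasDerivAt (fun s : ℝ => g (x + s • v)) (L v) 0 :=
    h0.comp_hasDerivAt 0 (hasDerivAt_path x v 0)
  have h4 := h3.inner ℝ (hasDerivAt_const (0 : ℝ) v)
  simpa using h4

/-- The barrier along a line. -/
theorem barrier_line (B σ A r c : ℝ) (k k₁ : ℝ → ℝ) (k₂ : ℝ) (hk : ∀ s, HasDerivAt k (k₁ s) s)
    (hk₂ : HasDerivAt k₁ k₂ 0) :
    (∀ s, HasDerivAt (fun s => B * (2 * ((r + 2 * c * s) / σ) - ((r + 2 * c * s) / σ) ^ 2) *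
        Real.exp (A * k s))
      (B * (4 * c / σ * (1 - (r + 2 * c * s) / σ)) * Real.exp (A * k s) +
        B * (2 * ((r + 2 * c * s) / σ) - ((r + 2 * c * s) / σ) ^ 2) *
          (Real.exp (A * k s) * (A * k₁ s))) s) ∧
    HasDerivAt (fun s => B * (4 * c / σ * (1 - (r + 2 * c * s) / σ)) * Real.exp (A * k s) +
        B * (2 * ((r + 2 * c * s) / σ) - ((r + 2 * c * s) / σ) ^ 2) *
          (Real.exp (A * k s) * (A * k₁ s)))
      (B * Real.exp (A * k 0) * (-(8 * c ^ 2 / σ ^ 2) + 8 * c / σ * (1 - r / σ) * (A * k₁ 0) +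
        (2 * (r / σ) - (r / σ) ^ 2) * (A * k₂ + (A * k₁ 0) ^ 2))) 0 := by
  have hl : ∀ s, HasDerivAt (fun s => (r + 2 * c * s) / σ) (2 * c / σ) s := by
    intro s
    have := (((hasDerivAt_id s).const_mul (2 * c)).const_add r).div_const σ
    simpa using this
  have hG : ∀ s, HasDerivAt (fun s => 2 * ((r + 2 * c * s) / σ) - ((r + 2 * c * s) / σ) ^ 2)
      (4 * c / σ * (1 - (r + 2 * c * s) / σ)) s := by
    intro s
    have := ((hl s).const_mul 2).sub ((hl s).pow 2)
    refine this.congr_deriv ?_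
    simp only [Nat.cast_ofNat]
    ring
  have hE : ∀ s, HasDerivAt (fun s => Real.exp (A * k s)) (Real.exp (A * k s) * (A * k₁ s)) s :=
    fun s => ((hk s).const_mul A).exp
  have hG1 : HasDerivAt (fun s => 4 * c / σ * (1 - (r + 2 * c * s) / σ)) (-(8 * c ^ 2 / σ ^ 2))
      0 := by
    have := ((hl 0).const_sub 1).const_mul (4 * c / σ)
    refine this.congr_deriv ?_
    ring
  constructor
  · intro s
    have := ((hG s).const_mul B).mul (hE s)
    exact this
  · have h1 := (hG1.const_mul B).mul (hE 0)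
    have h2 := ((hG 0).const_mul B).mul ((hE 0).mul (hk₂.const_mul A))
    refine (h1.add h2).congr_deriv ?_
    simp only [mul_zero, add_zero, Pi.mul_apply]
    ring

/-- The trace in the reflected basis. -/
theorem tr_reflect (L : Eu p →L[ℝ] Eu p) (e : Eu p) (he : ‖e‖ = 1) :
    ∑ i, inner ℝ (L (EuclideanSpace.single i 1 - (2 * e i) • e))
      (EuclideanSpace.single i 1 - (2 * e i) • e) = tr L := by
  have h1 : ∑ i, e i ^ 2 = 1 := by
    have := EuclideanSpace.norm_sq_eq e
    rw [he] at this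
    simpa using this.symm
  have hs : ∑ i, e i • (EuclideanSpace.single i (1 : ℝ) : Eu p) = e := by
    ext j
    simp [Pi.single_apply]
  have hin : ∀ v : Eu p, ∀ i, inner ℝ v (EuclideanSpace.single i (1 : ℝ)) = v i := by
    intro v i
    simp [EuclideanSpace.inner_single_right]
  have h2 : ∑ i, e i * inner ℝ (L e) (EuclideanSpace.single i (1 : ℝ)) = inner ℝ (L e) e := by
    conv_rhs => rw [← hs]
    rw [inner_sum]
    refine Finset.sum_congr rfl fun i _ => ?_
    rw [hs, real_inner_smul_right]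
  have h3 : ∑ i, e i * inner ℝ (L (EuclideanSpace.single i (1 : ℝ))) e = inner ℝ (L e) e := by
    have : L e = ∑ i, e i • L (EuclideanSpace.single i (1 : ℝ)) := by
      conv_lhs => rw [← hs]
      simp
    rw [this, sum_inner]
    refine Finset.sum_congr rfl fun i _ => ?_
    rw [real_inner_smul_left]
  have h4 : ∀ i, inner ℝ (L (EuclideanSpace.single i 1 - (2 * e i) • e))
      (EuclideanSpace.single i 1 - (2 * e i) • e) =
      (L (EuclideanSpace.single i 1)) i
      - 2 * (e i * inner ℝ (L e) (EuclideanSpace.single i (1 : ℝ)))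
      - 2 * (e i * inner ℝ (L (EuclideanSpace.single i (1 : ℝ))) e)
      + 4 * e i ^ 2 * inner ℝ (L e) e := by
    intro i
    rw [map_sub, map_smul, inner_sub_left, inner_sub_right, inner_sub_right,
      real_inner_smul_left, real_inner_smul_left, real_inner_smul_right, real_inner_smul_right,
      hin, hin]
    ring
  rw [Finset.sum_congr rfl fun i _ => h4 i, Finset.sum_add_distrib, Finset.sum_sub_distrib,
    Finset.sum_sub_distrib, ← Finset.mul_sum, ← Finset.mul_sum, h2, h3, ← Finset.sum_mul,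
    ← Finset.mul_sum, h1]
  unfold tr
  ring

theorem rfl_st : RflStatement := by
  intro p Ω q hΩ
  obtain ⟨K1, hK1, hb1⟩ := hΩ.exists_bound (hΩ.continuous_gradient.continuousOn)
  have hgd : Differentiable ℝ (gradient q) := hΩ.contDiff_gradient.differentiable (by norm_num)
  have hgc : Continuous (fderiv ℝ (gradient q)) :=
    hΩ.contDiff_gradient.continuous_fderiv (by norm_num)
  obtain ⟨K2, hK2, hb2⟩ := hΩ.exists_bound hgc.continuousOn
  refine ⟨p * (8 * K1 + 2 * K2 + 4 * K1 ^ 2), by positivity, ?_⟩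
  intro A B σ f f' H x y hA hB hσ hf hx hy hr hrσ hmax
  set r := ‖x - y‖ with hrdef
  obtain ⟨e, he, hxy⟩ : ∃ e : Eu p, ‖e‖ = 1 ∧ x - y = r • e := by
    refine ⟨r⁻¹ • (x - y), ?_, ?_⟩
    · rw [norm_smul, norm_inv, Real.norm_of_nonneg hr.le]
      exact inv_mul_cancel₀ hr.ne'
    · rw [smul_smul, mul_inv_cancel₀ hr.ne', one_smul]
  have hsum1 : ∑ i, e i ^ 2 = 1 := by
    have := EuclideanSpace.norm_sq_eq e
    rw [he] at this
    simpa using this.symm
  have hc1 : ∀ i, |e i| ≤ 1 := by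
    intro i
    have h := PiLp.norm_apply_le e i
    rw [he] at h
    exact h
  let u : Fin p → Eu p := fun i => EuclideanSpace.single i 1
  let v : Fin p → Eu p := fun i => EuclideanSpace.single i 1 - (2 * e i) • e
  have hu : ∀ i, ‖u i‖ = 1 := fun i => by simp [u]
  have hin : ∀ (w : Eu p) i, inner ℝ w (u i) = w i := by
    intro w i
    simp [u, EuclideanSpace.inner_single_right]
  have hv : ∀ i, ‖v i‖ = 1 := by
    intro i
    have h : ‖v i‖ ^ 2 = 1 := by
      rw [← real_inner_self_eq_norm_sq]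
      have h0 : v i = u i - (2 * e i) • e := rfl
      rw [h0, inner_sub_left, inner_sub_right, inner_sub_right, real_inner_smul_left,
        real_inner_smul_left, real_inner_smul_right, real_inner_smul_right,
        real_inner_self_eq_norm_sq, real_inner_self_eq_norm_sq, hu, he, hin,
        real_inner_comm, hin]
      ring
    have := norm_nonneg (v i)
    nlinarith
  -- the estimate for one direction
  have key : ∀ i, inner ℝ (H x (u i)) (u i) - inner ℝ (H y (v i)) (v i) ≤
      Real.exp (A * (q x + q y)) * (-(8 * B * e i ^ 2 / σ ^ 2) +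
        B * (16 * K1 / σ * A + 2 * K2 * A + 4 * K1 ^ 2 * A ^ 2)) := by
    intro i
    let k : ℝ → ℝ := fun s => q (x + s • u i) + q (y + s • v i)
    let k₁ : ℝ → ℝ := fun s => inner ℝ (gradient q (x + s • u i)) (u i) +
      inner ℝ (gradient q (y + s • v i)) (v i)
    let k₂ : ℝ := inner ℝ (fderiv ℝ (gradient q) x (u i)) (u i) +
      inner ℝ (fderiv ℝ (gradient q) y (v i)) (v i)
    have hk : ∀ s, HasDerivAt k (k₁ s) s := fun s =>
      (hΩ.hasDerivAt_line x (u i) s).add (hΩ.hasDerivAt_line y (v i) s)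
    have hk₂ : HasDerivAt k₁ k₂ 0 :=
      (hasDerivAt_inner_line (u i) (hgd x).hasFDerivAt).add
        (hasDerivAt_inner_line (v i) (hgd y).hasFDerivAt)
    obtain ⟨hb, hbb⟩ := barrier_line B σ A r (e i) k k₁ k₂ hk hk₂
    have hF : ∀ᶠ s in 𝓝 (0 : ℝ), HasDerivAt (fun s : ℝ => f (x + s • u i) - f (y + s • v i) -
        B * (2 * ((r + 2 * e i * s) / σ) - ((r + 2 * e i * s) / σ) ^ 2) * Real.exp (A * k s))
        (inner ℝ (f' (x + s • u i)) (u i) - inner ℝ (f' (y + s • v i)) (v i) -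
          (B * (4 * e i / σ * (1 - (r + 2 * e i * s) / σ)) * Real.exp (A * k s) +
        B * (2 * ((r + 2 * e i * s) / σ) - ((r + 2 * e i * s) / σ) ^ 2) *
          (Real.exp (A * k s) * (A * k₁ s)))) s := by
      filter_upwards [hΩ.eventually_mem_of_mem hx (u i), hΩ.eventually_mem_of_mem hy (v i)]
        with s h1 h2
      exact ((hf.toC1.hasDerivAt_line h1).sub (hf.toC1.hasDerivAt_line h2)).sub (hb s)
    have hF2 := ((hasDerivAt_inner_line (u i) (hf.d2 x hx)).sub
      (hasDerivAt_inner_line (v i) (hf.d2 y hy))).sub hbb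
    have hnorm : ∀ s : ℝ, ‖(x + s • u i) - (y + s • v i)‖ = |r + 2 * e i * s| := by
      intro s
      have h1 : (x + s • u i) - (y + s • v i) = (r + 2 * e i * s) • e := by
        have h0 : v i = u i - (2 * e i) • e := rfl
        rw [h0, smul_sub, smul_smul, add_smul, ← hxy]
        rw [mul_comm s (2 * e i)]
        abel
      rw [h1, norm_smul, he, mul_one, Real.norm_eq_abs]
    have hpos : ∀ᶠ s in 𝓝 (0 : ℝ), 0 < r + 2 * e i * s := by
      have hc : Continuous (fun s : ℝ => r + 2 * e i * s) := by fun_prop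
      have h0 : (0 : ℝ) < (fun s : ℝ => r + 2 * e i * s) 0 := by simpa using hr
      exact hc.continuousAt.eventually (lt_mem_nhds h0)
    have hloc : IsLocalMax (fun s : ℝ => f (x + s • u i) - f (y + s • v i) -
        B * (2 * ((r + 2 * e i * s) / σ) - ((r + 2 * e i * s) / σ) ^ 2) * Real.exp (A * k s))
        0 := by
      have hγ : Continuous (fun s : ℝ => ((x + s • u i, y + s • v i) : Eu p × Eu p)) := by
        fun_prop
      have hm := hmax
      unfold IsLocalMax IsMaxFilter at hm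
      have h0 : (fun s : ℝ => ((x + s • u i, y + s • v i) : Eu p × Eu p)) 0 = (x, y) := by simp
      have hγ' := hγ.continuousAt (x := 0)
      unfold ContinuousAt at hγ'
      rw [h0] at hγ'
      have h1 := hγ'.eventually hm
      filter_upwards [h1, hpos] with s hs hp
      have hs' : f (x + s • u i) - f (y + s • v i) - Psi q B σ A (x + s • u i) (y + s • v i) ≤
          f x - f y - Psi q B σ A x y := hs
      unfold Psi at hs'
      rw [hnorm s, abs_of_pos hp, ← hrdef] at hs'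
      simpa [k] using hs'
    have h2 := second_nonpos hloc hF hF2
    have hk0 : k 0 = q x + q y := by simp [k]
    have hk10 : k₁ 0 = inner ℝ (gradient q x) (u i) + inner ℝ (gradient q y) (v i) := by
      simp [k₁]
    have hcx := subset_closure hx
    have hcy := subset_closure hy
    have b1 : |k₁ 0| ≤ 2 * K1 := by
      rw [hk10]
      have a1 : |inner ℝ (gradient q x) (u i)| ≤ K1 := by
        refine (abs_real_inner_le_norm _ _).trans ?_
        rw [hu, mul_one]
        exact hb1 x hcx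
      have a2 : |inner ℝ (gradient q y) (v i)| ≤ K1 := by
        refine (abs_real_inner_le_norm _ _).trans ?_
        rw [hv, mul_one]
        exact hb1 y hcy
      exact (abs_add_le _ _).trans (by linarith)
    have b2 : k₂ ≤ 2 * K2 := by
      have a1 : inner ℝ (fderiv ℝ (gradient q) x (u i)) (u i) ≤ K2 := by
        refine (real_inner_le_norm _ _).trans ?_
        rw [hu, mul_one]
        refine ((fderiv ℝ (gradient q) x).le_opNorm _).trans ?_
        rw [hu, mul_one]
        exact hb2 x hcx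
      have a2 : inner ℝ (fderiv ℝ (gradient q) y (v i)) (v i) ≤ K2 := by
        refine (real_inner_le_norm _ _).trans ?_
        rw [hv, mul_one]
        refine ((fderiv ℝ (gradient q) y).le_opNorm _).trans ?_
        rw [hv, mul_one]
        exact hb2 y hcy
      show _ + _ ≤ _
      linarith
    rw [hk0] at h2
    set E := Real.exp (A * (q x + q y)) with hE
    have hEpos : 0 < E := Real.exp_pos _
    have hρ : 0 < r / σ ∧ r / σ < 1 := ⟨div_pos hr hσ, (div_lt_one hσ).2 hrσ⟩
    -- the three terms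
    have t1 : 8 * e i / σ * (1 - r / σ) * (A * k₁ 0) ≤ 16 * K1 / σ * A := by
      have z1 : |8 * e i / σ * (1 - r / σ) * (A * k₁ 0)| ≤ 8 / σ * 1 * (A * (2 * K1)) := by
        rw [abs_mul, abs_mul, abs_div, abs_mul, abs_of_pos hσ, abs_of_pos (by norm_num : (0:ℝ) < 8),
          abs_mul, abs_of_pos hA, abs_of_pos (by linarith [hρ.2] : 0 < 1 - r / σ)]
        have z2 : 8 * |e i| / σ ≤ 8 / σ := by
          apply div_le_div_of_nonneg_right _ hσ.le
          linarith [hc1 i]
        have z3 : 1 - r / σ ≤ 1 := by linarith [hρ.1]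
        have z4 : A * |k₁ 0| ≤ A * (2 * K1) := mul_le_mul_of_nonneg_left b1 hA.le
        exact mul_le_mul (mul_le_mul z2 z3 (by linarith [hρ.2]) (by positivity)) z4
          (by positivity) (by positivity)
      refine (le_abs_self _).trans (z1.trans (le_of_eq ?_))
      ring
    have hG0 : 0 ≤ 2 * (r / σ) - (r / σ) ^ 2 ∧ 2 * (r / σ) - (r / σ) ^ 2 ≤ 1 := by
      constructor <;> nlinarith [hρ.1, hρ.2]
    have t2 : A * k₂ + (A * k₁ 0) ^ 2 ≤ 2 * K2 * A + 4 * K1 ^ 2 * A ^ 2 := by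
      have z1 : A * k₂ ≤ A * (2 * K2) := mul_le_mul_of_nonneg_left b2 hA.le
      have z2 : (k₁ 0) ^ 2 ≤ (2 * K1) ^ 2 := by
        rw [← sq_abs (k₁ 0)]
        exact pow_le_pow_left₀ (abs_nonneg _) b1 2
      have z3 : A ^ 2 * (k₁ 0) ^ 2 ≤ A ^ 2 * (2 * K1) ^ 2 :=
        mul_le_mul_of_nonneg_left z2 (by positivity)
      nlinarith
    have t3 : (2 * (r / σ) - (r / σ) ^ 2) * (A * k₂ + (A * k₁ 0) ^ 2) ≤
        2 * K2 * A + 4 * K1 ^ 2 * A ^ 2 := by
      have hpos' : 0 ≤ 2 * K2 * A + 4 * K1 ^ 2 * A ^ 2 := by positivity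
      calc (2 * (r / σ) - (r / σ) ^ 2) * (A * k₂ + (A * k₁ 0) ^ 2)
          ≤ (2 * (r / σ) - (r / σ) ^ 2) * (2 * K2 * A + 4 * K1 ^ 2 * A ^ 2) :=
            mul_le_mul_of_nonneg_left t2 hG0.1
        _ ≤ 1 * (2 * K2 * A + 4 * K1 ^ 2 * A ^ 2) := mul_le_mul_of_nonneg_right hG0.2 hpos'
        _ = _ := one_mul _
    have t4 : B * E * (-(8 * e i ^ 2 / σ ^ 2) + 8 * e i / σ * (1 - r / σ) * (A * k₁ 0) +
        (2 * (r / σ) - (r / σ) ^ 2) * (A * k₂ + (A * k₁ 0) ^ 2)) ≤
        B * E * (-(8 * e i ^ 2 / σ ^ 2) + 16 * K1 / σ * A +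
          (2 * K2 * A + 4 * K1 ^ 2 * A ^ 2)) :=
      mul_le_mul_of_nonneg_left (by linarith) (by positivity)
    have t5 : B * E * (-(8 * e i ^ 2 / σ ^ 2) + 16 * K1 / σ * A +
          (2 * K2 * A + 4 * K1 ^ 2 * A ^ 2)) =
        E * (-(8 * B * e i ^ 2 / σ ^ 2) +
        B * (16 * K1 / σ * A + 2 * K2 * A + 4 * K1 ^ 2 * A ^ 2)) := by ring
    linarith
  -- summation
  have hsum := Finset.sum_le_sum fun i (_ : i ∈ Finset.univ) => key i
  rw [Finset.sum_sub_distrib, tr_reflect (H y) e he] at hsum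
  have htr : ∑ i, inner ℝ (H x (u i)) (u i) = tr (H x) := by
    unfold tr
    exact Finset.sum_congr rfl fun i _ => hin _ i
  rw [htr, ← Finset.mul_sum, Finset.sum_add_distrib, Finset.sum_const, Finset.card_univ,
    Fintype.card_fin, nsmul_eq_mul] at hsum
  have h8 : ∑ i, -(8 * B * e i ^ 2 / σ ^ 2) = -(8 * B / σ ^ 2) := by
    rw [Finset.sum_neg_distrib]
    have : ∀ i, 8 * B * e i ^ 2 / σ ^ 2 = 8 * B / σ ^ 2 * e i ^ 2 := fun i => by ring
    rw [Finset.sum_congr rfl fun i _ => this i, ← Finset.mul_sum, hsum1, mul_one]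
  rw [h8] at hsum
  refine hsum.trans (mul_le_mul_of_nonneg_left ?_ (Real.exp_pos _).le)
  have hp0 : (0 : ℝ) ≤ p := Nat.cast_nonneg p
  have e1 : (p : ℝ) * (8 * K1 + 2 * K2 + 4 * K1 ^ 2) * (A + A ^ 2) * (2 * B / σ + B) -
      p * (B * (16 * K1 / σ * A + 2 * K2 * A + 4 * K1 ^ 2 * A ^ 2)) =
      p * ((8 * K1 * A ^ 2 + (2 * K2 + 4 * K1 ^ 2) * (A + A ^ 2)) * (2 * B / σ) +
        (8 * K1 * (A + A ^ 2) + 2 * K2 * A ^ 2 + 4 * K1 ^ 2 * A) * B) := by
    ring
  have e2 : 0 ≤ p * ((8 * K1 * A ^ 2 + (2 * K2 + 4 * K1 ^ 2) * (A + A ^ 2)) * (2 * B / σ) +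
        (8 * K1 * (A + A ^ 2) + 2 * K2 * A ^ 2 + 4 * K1 ^ 2 * A) * B) := by positivity
  linarith

end Pool.Agent.Lib.MP_4fbe7c_an.ND.H33
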